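import Pool.Agent.H654R5.PT.Stm

set_option autoImplicit false

namespace Pool.Agent.H654R5.PT.DSG

open Pool.Agent.H654R5.PT Finset

theorem peval_lt (q f j l : ℕ) (hq : 0 < q) : peval q f j l < q := by
  unfold peval
  cases List.range f with
  | nil => simpa using hq
  | cons x xs =>
    rw [List.foldr_cons]
    exact Nat.mod_lt _ hq

/-- position of the element number `l` -/
def pos (q a f γ j l : ℕ) : ℕ := γ * (a * q) + (l * q + peval q f j l)

theorem pos_lt (q a f γ j l : ℕ) (hq : 0 < q) (hl : l < a) :
    pos q a f γ j l < (γ + 1) * (a * q) := by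
  unfold pos
  have h1 := peval_lt q f j l hq
  have h2 : (l + 1) * q ≤ a * q := Nat.mul_le_mul_right _ hl
  have h3 : (γ + 1) * (a * q) = γ * (a * q) + a * q := by ring
  have h4 : (l + 1) * q = l * q + q := by ring
  omega

theorem pos_inj (q a f γ j j' l l' : ℕ) (hq : 0 < q)
    (h : pos q a f γ j l = pos q a f γ j' l') : l = l' ∧ peval q f j l = peval q f j' l' := by
  unfold pos at h
  have h1 := peval_lt q f j l hq
  have h2 := peval_lt q f j' l' hq
  have h3 : l * q + peval q f j l = l' * q + peval q f j' l' := by omega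
  have h4 : l = l' := by
    have e1 : (l * q + peval q f j l) / q = l := by
      rw [mul_comm, Nat.mul_add_div hq, Nat.div_eq_of_lt h1, add_zero]
    have e2 : (l' * q + peval q f j' l') / q = l' := by
      rw [mul_comm, Nat.mul_add_div hq, Nat.div_eq_of_lt h2, add_zero]
    rw [← e1, h3, e2]
  subst h4
  exact ⟨rfl, by omega⟩

theorem dset_eq (q a f γ j : ℕ) : dset q a f γ j = (List.range a).map (pos q a f γ j) := rfl

theorem dset_nodup (q a f γ j : ℕ) (hq : 0 < q) : (dset q a f γ j).Nodup := by
  rw [dset_eq]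
  apply List.Nodup.map _ List.nodup_range
  intro l l' h
  exact (pos_inj q a f γ j j l l' hq h).1

theorem inter_le (q a f γ j j' : ℕ) (hq : 0 < q) :
    inter (dset q a f γ j) (dset q a f γ j') ≤
      ((range a).filter (fun l => peval q f j l = peval q f j' l)).card := by
  unfold inter
  rw [dset_eq q a f γ j, List.filter_map, List.length_map]
  have : ((range a).filter (fun l => peval q f j l = peval q f j' l)).card =
      ((List.range a).filter (fun l => decide (peval q f j l = peval q f j' l))).length := rfl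
  rw [this]
  apply List.Sublist.length_le
  apply List.monotone_filter_right
  intro l hl
  simp only [Function.comp_apply, decide_eq_true_eq] at hl ⊢
  rw [dset_eq, List.mem_map] at hl
  obtain ⟨l', _, h⟩ := hl
  obtain ⟨h1, h2⟩ := pos_inj q a f γ j' j l' l hq h
  subst h1
  exact h2.symm

theorem inter_zero (S T : List ℕ) (b : ℕ) (hS : ∀ k ∈ S, b ≤ k) (hT : ∀ k ∈ T, k < b) :
    inter S T = 0 := by
  unfold inter
  rw [List.length_eq_zero_iff, List.filter_eq_nil_iff]
  intro k hk h
  rw [decide_eq_true_eq] at h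
  have := hS k hk
  have := hT k h
  omega

/-- the design from the group `γ` on -/
def D (q a f n B γ : ℕ) : List (List ℕ) :=
  ((gsz q n B).zipIdx γ).flatMap (fun p => (List.range p.1).map (fun j => dset q a f p.2 j))

theorem D_nil (q a f B γ : ℕ) : D q a f 0 B γ = [] := rfl

theorem D_small (q a f n B γ : ℕ) (h : B < 3) : D q a f (n + 1) B γ = [] := by
  unfold D
  rw [gsz, if_pos h]
  rfl

theorem D_cons (q a f n B γ : ℕ) (h : ¬ B < 3) : D q a f (n + 1) B γ =
    (List.range (lf q (B / 3))).map (fun j => dset q a f γ j) ++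
      D q a f n (B - lf q (B / 3)) (γ + 1) := by
  unfold D
  rw [gsz, if_neg h, List.zipIdx_cons, List.flatMap_cons]

/-- facts on one group -/
structure Grp (q a f B t : ℕ) : Prop where
  le : 3 * t ≤ B
  big : B ≤ 10 * t
  agr : ∀ j < t, ∑ j' ∈ (range t).erase j,
    2 ^ ((range a).filter (fun l => peval q f j l = peval q f j' l)).card ≤ 3 * t

theorem grp (h1 : S_LF) (h2 : S_AGR) (q a g B : ℕ) (hq : q.Prime) (ha : a ≤ q)
    (hB : B ≤ 2 ^ (g + 1)) (h3 : ¬ B < 3) : Grp q a (g + 2) B (lf q (B / 3)) := by
  obtain ⟨e1, e2, c, r, hc1, hc2, hr, e3⟩ := h1 q (B / 3) hq.two_le (by omega)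
  refine ⟨by omega, by omega, ?_⟩
  intro j hj
  rw [e3] at hj ⊢
  apply h2 q (g + 2) a c r j hq ha hc1 hc2 _ hj
  have h4 : 2 ^ r ≤ q ^ r := Nat.pow_le_pow_left hq.two_le r
  have h5 : 2 ^ r < 2 ^ (g + 2) := by
    have : (2:ℕ) ^ (g + 2) = 2 * 2 ^ (g + 1) := by ring
    have h6 : 0 < 2 ^ (g + 1) := by positivity
    omega
  exact (Nat.pow_lt_pow_iff_right (by norm_num)).1 h5

theorem D_props (h1 : S_LF) (h2 : S_AGR) (q a g : ℕ) (hq : q.Prime) (ha : a ≤ q) (n : ℕ) :
    ∀ B γ, B ≤ 2 ^ (g + 1) →
    (∀ S ∈ D q a (g + 2) n B γ, S.length = a ∧ S.Nodup ∧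
      ∀ k ∈ S, γ * (a * q) ≤ k ∧ k < (γ + n) * (a * q)) ∧
    (9 ^ n * B < 3 * 10 ^ n → B ≤ (D q a (g + 2) n B γ).length + 2) ∧
    ∀ i < (D q a (g + 2) n B γ).length,
      ∑ j ∈ range i, 2 ^ inter ((D q a (g + 2) n B γ).getD i [])
        ((D q a (g + 2) n B γ).getD j []) ≤ B := by
  induction n with
  | zero =>
    intro B γ _
    rw [D_nil]
    refine ⟨by simp, fun h => by simp at h ⊢; omega, fun i hi => by simp at hi⟩
  | succ n ih =>
    intro B γ hB
    by_cases h3 : B < 3
    · rw [D_small _ _ _ _ _ _ h3]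
      refine ⟨by simp, fun _ => by simp; omega, fun i hi => by simp at hi⟩
    · have hG := grp h1 h2 q a g B hq ha hB h3
      set t := lf q (B / 3) with ht
      obtain ⟨i1, i2, i3⟩ := ih (B - t) (γ + 1) (by omega)
      rw [D_cons _ _ _ _ _ _ h3, ← ht]
      set L' := D q a (g + 2) n (B - t) (γ + 1) with hL'
      set G := (List.range t).map (fun j => dset q a (g + 2) γ j) with hGd
      have hGl : G.length = t := by rw [hGd, List.length_map, List.length_range]
      have hGget : ∀ j < t, (G ++ L').getD j [] = dset q a (g + 2) γ j := by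
        intro j hj
        rw [List.getD_append _ _ _ _ (by rw [hGl]; exact hj), hGd,
          List.getD_eq_getElem _ _ (by rw [List.length_map, List.length_range]; exact hj),
          List.getElem_map, List.getElem_range]
      have hLget : ∀ j, (G ++ L').getD (t + j) [] = L'.getD j [] := by
        intro j
        rw [List.getD_append_right _ _ _ _ (by omega), hGl, Nat.add_sub_cancel_left]
      have hposmul : (γ + 1) * (a * q) ≤ (γ + (n + 1)) * (a * q) :=
        Nat.mul_le_mul_right _ (by omega)
      refine ⟨?_, ?_, ?_⟩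
      · intro S hS
        rw [List.mem_append] at hS
        rcases hS with hS | hS
        · rw [hGd, List.mem_map] at hS
          obtain ⟨j, _, rfl⟩ := hS
          refine ⟨by rw [dset_eq, List.length_map, List.length_range],
            dset_nodup _ _ _ _ _ hq.pos, ?_⟩
          intro k hk
          rw [dset_eq, List.mem_map] at hk
          obtain ⟨l, hl, rfl⟩ := hk
          have hp := pos_lt q a (g + 2) γ j l hq.pos (List.mem_range.1 hl)
          refine ⟨?_, by omega⟩
          unfold pos
          omega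
        · obtain ⟨a1, a2, a3⟩ := i1 S hS
          refine ⟨a1, a2, fun k hk => ?_⟩
          obtain ⟨b1, b2⟩ := a3 k hk
          have e1 : (γ + 1) * (a * q) = γ * (a * q) + a * q := by ring
          have e2 : (γ + 1 + n) * (a * q) = (γ + (n + 1)) * (a * q) := by ring
          omega
      · intro hlt
        rw [List.length_append, hGl]
        have := i2 (by
          have hbig := hG.big
          have e1 : 10 * (B - t) ≤ 9 * B := by omega
          have e2 : 9 ^ n * (10 * (B - t)) ≤ 9 ^ n * (9 * B) := Nat.mul_le_mul_left _ e1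
          have e3 : 9 ^ (n + 1) * B = 9 ^ n * (9 * B) := by ring
          have e4 : 3 * 10 ^ (n + 1) = 10 * (3 * 10 ^ n) := by ring
          have e5 : 9 ^ n * (10 * (B - t)) = 10 * (9 ^ n * (B - t)) := by ring
          omega)
        omega
      · intro i hi
        rw [List.length_append, hGl] at hi
        rcases Nat.lt_or_ge i t with hit | hit
        · rw [hGget i hit]
          calc ∑ j ∈ range i, 2 ^ inter (dset q a (g + 2) γ i) ((G ++ L').getD j []) ≤
              ∑ j ∈ range i, 2 ^ ((range a).filter
                (fun l => peval q (g + 2) i l = peval q (g + 2) j l)).card := by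
                apply Finset.sum_le_sum
                intro j hj
                rw [hGget j ((Finset.mem_range.1 hj).trans hit)]
                exact Nat.pow_le_pow_right (by norm_num) (inter_le _ _ _ _ _ _ hq.pos)
            _ ≤ ∑ j ∈ (range t).erase i, 2 ^ ((range a).filter
                (fun l => peval q (g + 2) i l = peval q (g + 2) j l)).card := by
                apply Finset.sum_le_sum_of_subset
                intro j hj
                rw [Finset.mem_range] at hj
                rw [Finset.mem_erase, Finset.mem_range]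
                omega
            _ ≤ 3 * t := hG.agr i hit
            _ ≤ B := hG.le
        · obtain ⟨i', rfl⟩ : ∃ i', i = t + i' := ⟨i - t, by omega⟩
          rw [hLget, Finset.sum_range_add]
          have hmem : L'.getD i' [] ∈ L' := by
            rw [List.getD_eq_getElem _ _ (by omega)]
            exact List.getElem_mem _
          obtain ⟨_, _, a3⟩ := i1 _ hmem
          have e1 : ∑ j ∈ range t, 2 ^ inter (L'.getD i' []) ((G ++ L').getD j []) = t := by
            have : ∀ j ∈ range t, 2 ^ inter (L'.getD i' []) ((G ++ L').getD j []) = 1 := by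
              intro j hj
              rw [hGget j (Finset.mem_range.1 hj),
                inter_zero _ _ ((γ + 1) * (a * q)) (fun k hk => (a3 k hk).1), pow_zero]
              intro k hk
              rw [dset_eq, List.mem_map] at hk
              obtain ⟨l, hl, rfl⟩ := hk
              exact pos_lt q a (g + 2) γ j l hq.pos (List.mem_range.1 hl)
            rw [Finset.sum_congr rfl this, Finset.sum_const, Finset.card_range, smul_eq_mul,
              mul_one]
          have e2 := i3 i' (by omega)
          simp only [hLget]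
          rw [e1]
          have := hG.le
          omega

theorem DSG_proof (h0 : S_PRM) (h1 : S_LF) (h2 : S_AGR) : S_DSG := by
  intro g B hB
  obtain ⟨hq, hq1, _⟩ := h0 (aa g) (by unfold aa; omega)
  have hD : dsg g B = D (qp g) (aa g) (g + 2) (gg g) B 0 := rfl
  obtain ⟨a1, a2, a3⟩ := D_props h1 h2 (qp g) (aa g) g hq hq1 (gg g) B 0 hB
  rw [← hD] at a1 a2 a3
  refine ⟨?_, ?_, a3⟩
  · intro S hS
    obtain ⟨b1, b2, b3⟩ := a1 S hS
    refine ⟨b1, b2, fun k hk => ?_⟩
    have := (b3 k hk).2
    rwa [zero_add] at this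
  · apply a2
    unfold gg
    have e1 : (9:ℕ) ^ (7 * g + 15) = (9 ^ 7) ^ g * 9 ^ 15 := by rw [pow_add, pow_mul]
    have e2 : (10:ℕ) ^ (7 * g + 15) = (10 ^ 7) ^ g * 10 ^ 15 := by rw [pow_add, pow_mul]
    have e3 : ((9:ℕ) ^ 7) ^ g * 2 ^ g ≤ (10 ^ 7) ^ g := by
      rw [← mul_pow]
      exact Nat.pow_le_pow_left (by norm_num) g
    calc 9 ^ (7 * g + 15) * B ≤ 9 ^ (7 * g + 15) * 2 ^ (g + 1) := Nat.mul_le_mul_left _ hB
      _ = ((9 ^ 7) ^ g * 2 ^ g) * (9 ^ 15 * 2) := by rw [e1]; ring
      _ ≤ (10 ^ 7) ^ g * (9 ^ 15 * 2) := Nat.mul_le_mul_right _ e3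
      _ < (10 ^ 7) ^ g * (3 * 10 ^ 15) := by
        apply Nat.mul_lt_mul_of_pos_left (by norm_num) (by positivity)
      _ = 3 * 10 ^ (7 * g + 15) := by rw [e2]; ring

end Pool.Agent.H654R5.PT.DSG
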