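import Pool.Agent.H654R5.PT.Stm

set_option autoImplicit false

namespace Pool.Agent.H654R5.PT.AGR

open Pool.Agent.H654R5.PT Finset Polynomial

theorem cast_foldr (q l : ℕ) (f : ℕ) : ∀ dig : ℕ → ℕ,
    (((List.range f).foldr (fun r acc => (dig r + l * acc) % q) 0 : ℕ) : ZMod q) =
      ∑ i ∈ range f, (dig i : ZMod q) * (l : ZMod q) ^ i := by
  induction f with
  | zero => intro dig; simp
  | succ f ih =>
    intro dig
    rw [List.range_succ_eq_map, List.foldr_cons, List.foldr_map, ZMod.natCast_mod, Nat.cast_add,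
      Nat.cast_mul]
    have h := ih (fun r => dig (r + 1))
    simp only [Nat.succ_eq_add_one]
    rw [h, Finset.sum_range_succ', Finset.mul_sum, add_comm]
    simp only [pow_zero, mul_one]
    congr 1
    apply Finset.sum_congr rfl
    intro i _
    rw [pow_succ]
    ring

theorem mod_eq (q j1 j2 h : ℕ) (hd : ∀ i < h, j1 / q ^ i % q = j2 / q ^ i % q) :
    j1 % q ^ h = j2 % q ^ h := by
  induction h with
  | zero => simp [Nat.mod_one]
  | succ h ih =>
    rw [Nat.mod_pow_succ, Nat.mod_pow_succ, ih (fun i hi => hd i (by omega)), hd h (by omega)]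

theorem inj (q f r j1 j2 : ℕ) (T : Finset ℕ) (hq : q.Prime) (hr : r < f) (hT : ∀ l ∈ T, l < q)
    (h1 : j1 < q ^ (r + 1)) (h2 : j2 < q ^ (r + 1))
    (hag : ∀ l ∈ T, peval q f j1 l = peval q f j2 l)
    (hdiv : j1 / q ^ T.card = j2 / q ^ T.card) : j1 = j2 := by
  haveI : Fact q.Prime := ⟨hq⟩
  set D : (ZMod q)[X] := ∑ i ∈ range f,
    C (((j1 / q ^ i % q : ℕ) : ZMod q) - ((j2 / q ^ i % q : ℕ) : ZMod q)) * X ^ i with hD
  have hcoef : ∀ n, D.coeff n = if n < f then
      (((j1 / q ^ n % q : ℕ) : ZMod q) - ((j2 / q ^ n % q : ℕ) : ZMod q)) else 0 := by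
    intro n
    rw [hD, finset_sum_coeff]
    simp only [coeff_C_mul, coeff_X_pow, mul_ite, mul_one, mul_zero]
    rw [Finset.sum_ite_eq (range f) n]
    simp only [Finset.mem_range]
  have hdeg : D.degree < ((T.image (fun l : ℕ => (l : ZMod q))).card : WithBot ℕ) := by
    have hc : (T.image (fun l : ℕ => (l : ZMod q))).card = T.card := by
      apply Finset.card_image_of_injOn
      intro x hx y hy hxy
      have hx' := hT x hx
      have hy' := hT y hy
      have := (ZMod.natCast_eq_natCast_iff' x y q).1 hxy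
      rwa [Nat.mod_eq_of_lt hx', Nat.mod_eq_of_lt hy'] at this
    rw [hc, degree_lt_iff_coeff_zero]
    intro m hm
    rw [hcoef m]
    split_ifs with h
    · have e : j1 / q ^ m = j2 / q ^ m := by
        have e0 : q ^ m = q ^ T.card * q ^ (m - T.card) := by
          rw [← pow_add]; congr 1; omega
        rw [e0, ← Nat.div_div_eq_div_mul, ← Nat.div_div_eq_div_mul, hdiv]
      rw [e, sub_self]
    · rfl
  have hz : D = 0 := by
    apply eq_zero_of_degree_lt_of_eval_finset_eq_zero _ hdeg
    intro x hx
    obtain ⟨l, hl, rfl⟩ := Finset.mem_image.1 hx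
    have e1 := cast_foldr q l f (fun i => j1 / q ^ i % q)
    have e2 := cast_foldr q l f (fun i => j2 / q ^ i % q)
    have e3 : (peval q f j1 l : ZMod q) = (peval q f j2 l : ZMod q) := by rw [hag l hl]
    unfold peval at e3
    rw [e1, e2] at e3
    rw [hD, eval_finset_sum]
    simp only [eval_mul, eval_C, eval_pow, eval_X, sub_mul]
    rw [Finset.sum_sub_distrib, e3, sub_self]
  have hdig : ∀ i < f, j1 / q ^ i % q = j2 / q ^ i % q := by
    intro i hi
    have e := hcoef i
    rw [hz, coeff_zero, if_pos hi] at e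
    have e2 := (ZMod.natCast_eq_natCast_iff' _ _ q).1 (sub_eq_zero.1 e.symm)
    rwa [Nat.mod_mod, Nat.mod_mod] at e2
  have h3 := mod_eq q j1 j2 f hdig
  have hle : q ^ (r + 1) ≤ q ^ f := Nat.pow_le_pow_right hq.pos hr
  rwa [Nat.mod_eq_of_lt (h1.trans_le hle), Nat.mod_eq_of_lt (h2.trans_le hle)] at h3

theorem count (q f a c r j : ℕ) (T : Finset ℕ) (hq : q.Prime) (ha : a ≤ q) (hc : c < q)
    (hr : r < f) (hj : j < c * q ^ r) (hT : T ⊆ range a) :
    (((range (c * q ^ r)).erase j).filter (fun j' => T ⊆ (range a).filter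
      (fun l => peval q f j l = peval q f j' l))).card ≤
      if T.card ≤ r then c * q ^ (r - T.card) else 0 := by
  have hcq : c * q ^ r ≤ q ^ (r + 1) := by
    rw [pow_succ, mul_comm (q ^ r) q]
    exact Nat.mul_le_mul_right _ hc.le
  have hTq : ∀ l ∈ T, l < q := fun l hl => (Finset.mem_range.1 (hT hl)).trans_le ha
  have hag : ∀ j' ∈ (((range (c * q ^ r)).erase j).filter (fun j' => T ⊆ (range a).filter
      (fun l => peval q f j l = peval q f j' l))), j' < c * q ^ r ∧ j' ≠ j ∧
        ∀ l ∈ T, peval q f j l = peval q f j' l := by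
    intro j' hj'
    rw [Finset.mem_filter, Finset.mem_erase, Finset.mem_range] at hj'
    exact ⟨hj'.1.2, hj'.1.1, fun l hl => (Finset.mem_filter.1 (hj'.2 hl)).2⟩
  split_ifs with h
  · calc _ ≤ (range (c * q ^ (r - T.card))).card := by
          apply Finset.card_le_card_of_injOn (fun j' => j' / q ^ T.card)
          · intro j' hj'
            obtain ⟨h1, _, _⟩ := hag j' hj'
            rw [Finset.coe_range, Set.mem_Iio]
            rw [Nat.div_lt_iff_lt_mul (pow_pos hq.pos _), mul_assoc, ← pow_add]
            rwa [Nat.sub_add_cancel h]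
          · intro x hx y hy hxy
            obtain ⟨h1, _, h2⟩ := hag x hx
            obtain ⟨h3, _, h4⟩ := hag y hy
            exact inj q f r x y T hq hr hTq (h1.trans_le hcq) (h3.trans_le hcq)
              (fun l hl => (h2 l hl).symm.trans (h4 l hl)) hxy
      _ = _ := Finset.card_range _
  · rw [Nat.le_zero, Finset.card_eq_zero, Finset.eq_empty_iff_forall_notMem]
    intro x hx
    obtain ⟨h1, h2, h3⟩ := hag x hx
    apply h2
    have hz : ∀ y, y < q ^ (r + 1) → y / q ^ T.card = 0 := by
      intro y hy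
      apply Nat.div_eq_of_lt
      exact hy.trans_le (Nat.pow_le_pow_right hq.pos (by omega))
    exact inj q f r x j T hq hr hTq (h1.trans_le hcq) (hj.trans_le hcq)
      (fun l hl => (h3 l hl).symm) (by rw [hz x (h1.trans_le hcq), hz j (hj.trans_le hcq)])

theorem num (q a c r : ℕ) (hq : 0 < q) (ha : a ≤ q) :
    ∑ h ∈ range (a + 1), a.choose h • (if h ≤ r then c * q ^ (r - h) else 0) ≤
      3 * (c * q ^ r) := by
  have key : ∀ h ∈ range (a + 1), ((a.choose h • (if h ≤ r then c * q ^ (r - h) else 0) : ℕ) : ℝ) ≤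
      (c * q ^ r : ℝ) * ((1 : ℝ) ^ h / h.factorial) := by
    intro h _
    rw [one_pow]
    split_ifs with hr
    · have h1 : a.choose h * h.factorial ≤ q ^ h := by
        have h2 : a.choose h * h.factorial = a.descFactorial h := by
          rw [Nat.descFactorial_eq_factorial_mul_choose, mul_comm]
        rw [h2]
        exact (Nat.descFactorial_le_pow a h).trans (Nat.pow_le_pow_left ha h)
      have hf : (0 : ℝ) < h.factorial := by exact_mod_cast Nat.factorial_pos h
      rw [mul_one_div, le_div_iff₀ hf]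
      have h3 : a.choose h * (c * q ^ (r - h)) * h.factorial ≤ c * q ^ r := by
        calc a.choose h * (c * q ^ (r - h)) * h.factorial =
            (a.choose h * h.factorial) * (c * q ^ (r - h)) := by ring
          _ ≤ q ^ h * (c * q ^ (r - h)) := Nat.mul_le_mul_right _ h1
          _ = c * (q ^ h * q ^ (r - h)) := by ring
          _ = c * q ^ r := by rw [← pow_add, Nat.add_sub_cancel' hr]
      rw [smul_eq_mul]
      exact_mod_cast h3
    · rw [smul_zero, Nat.cast_zero]
      positivity
  have h1 : ((∑ h ∈ range (a + 1), a.choose h • (if h ≤ r then c * q ^ (r - h) else 0) : ℕ) : ℝ) ≤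
      3 * (c * q ^ r : ℝ) := by
    rw [Nat.cast_sum]
    calc _ ≤ ∑ h ∈ range (a + 1), (c * q ^ r : ℝ) * ((1 : ℝ) ^ h / h.factorial) :=
          Finset.sum_le_sum key
      _ = (c * q ^ r : ℝ) * ∑ h ∈ range (a + 1), ((1 : ℝ) ^ h / h.factorial) := by
          rw [Finset.mul_sum]
      _ ≤ (c * q ^ r : ℝ) * 3 := by
          apply mul_le_mul_of_nonneg_left _ (by positivity)
          have := Real.sum_le_exp_of_nonneg (x := 1) zero_le_one (a + 1)
          linarith [Real.exp_one_lt_d9]
      _ = _ := by ring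
  exact_mod_cast h1

theorem AGR_proof : S_AGR := by
  intro q f a c r j hq ha _ hc hr hj
  have e1 : ∀ j' ∈ (range (c * q ^ r)).erase j,
      2 ^ ((range a).filter (fun l => peval q f j l = peval q f j' l)).card =
      ∑ T ∈ (range a).powerset, if T ⊆ (range a).filter
        (fun l => peval q f j l = peval q f j' l) then 1 else 0 := by
    intro j' _
    rw [← Finset.card_powerset, Finset.card_eq_sum_ones, ← Finset.sum_filter]
    apply Finset.sum_congr _ (fun _ _ => rfl)
    ext T
    rw [Finset.mem_powerset, Finset.mem_filter, Finset.mem_powerset]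
    exact ⟨fun h => ⟨h.trans (Finset.filter_subset _ _), h⟩, fun h => h.2⟩
  rw [Finset.sum_congr rfl e1, Finset.sum_comm]
  have e2 : ∀ T ∈ (range a).powerset, (∑ j' ∈ (range (c * q ^ r)).erase j,
      if T ⊆ (range a).filter (fun l => peval q f j l = peval q f j' l) then 1 else 0) ≤
      if T.card ≤ r then c * q ^ (r - T.card) else 0 := by
    intro T hT
    rw [Finset.sum_boole]
    exact_mod_cast count q f a c r j T hq ha hc hr hj (Finset.mem_powerset.1 hT)
  refine (Finset.sum_le_sum e2).trans ?_
  have e3 := Finset.sum_powerset_apply_card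
    (fun h => if h ≤ r then c * q ^ (r - h) else 0) (x := range a)
  rw [e3, Finset.card_range]
  exact num q a c r hq.pos ha

end Pool.Agent.H654R5.PT.AGR
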