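import Pool.Agent.H654R5.PT.Stm

set_option autoImplicit false

namespace Pool.Agent.H654R5.PT.E1

open Pool.Agent.H654R5.PT Finset

/-- `List.ofFn` maps the functions onto the strings of length `k` -/
theorem ofFn_mem (h : S_STR) (k : ℕ) (w : Fin k → Bool) : List.ofFn w ∈ strs k := by
  rw [h.2.2.2.1, List.length_ofFn]

theorem exists_ofFn (k : ℕ) (z : List Bool) (hz : z.length = k) :
    ∃ w : Fin k → Bool, List.ofFn w = z := by
  subst hz
  exact ⟨fun i => z.get i, List.ofFn_get z⟩

theorem sum_strs (h : S_STR) (k : ℕ) (F : List Bool → ℚ) :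
    ∑ z ∈ strs k, F z = ∑ w : Fin k → Bool, F (List.ofFn w) := by
  symm
  apply Finset.sum_bij (fun w _ => List.ofFn w)
  · intro w _
    exact ofFn_mem h k w
  · intro w _ w' _ hw
    exact List.ofFn_injective hw
  · intro z hz
    rw [h.2.2.2.1] at hz
    obtain ⟨w, hw⟩ := exists_ofFn k z hz
    exact ⟨w, Finset.mem_univ _, hw⟩
  · intro w _
    rfl

theorem card_strs (h : S_STR) (k : ℕ) (P : List Bool → Prop) [DecidablePred P] :
    ((strs k).filter P).card =
      ((Finset.univ : Finset (Fin k → Bool)).filter (fun w => P (List.ofFn w))).card := by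
  symm
  apply Finset.card_bij (fun w _ => List.ofFn w)
  · intro w hw
    rw [Finset.mem_filter] at hw ⊢
    exact ⟨ofFn_mem h k w, hw.2⟩
  · intro w _ w' _ hw
    exact List.ofFn_injective hw
  · intro z hz
    rw [Finset.mem_filter, h.2.2.2.1] at hz
    obtain ⟨w, hw⟩ := exists_ofFn k z hz.1
    refine ⟨w, ?_, hw⟩
    rw [Finset.mem_filter]
    exact ⟨Finset.mem_univ _, by rw [hw]; exact hz.2⟩

theorem E1_proof (hS : S_STR) (hD : S_DSG) (hH : S_HYB) (hJ : S_JOH) : S_E1 := by
  classical
  intro g B τ hτ hτB hB
  obtain ⟨d1, d2, d3⟩ := hD g B hB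
  set L := dsg g B with hL
  have hlen : τ ≤ L.length := by omega
  refine ⟨?_, ?_⟩
  · intro x s
    unfold E1
    rw [List.length_map, List.length_take]
    exact min_eq_left hlen
  intro W X hW hX hXW
  set a := aa g with ha
  set d := dd g with hd
  -- the sets
  have hget : ∀ i : Fin τ, L.getD i [] ∈ L := by
    intro i
    rw [List.getD_eq_getElem _ _ (by have := i.isLt; omega)]
    exact List.getElem_mem _
  have hlen2 : ∀ i : Fin τ, (L.getD i []).length = a := fun i => (d1 _ (hget i)).1
  have hgd : ∀ (i : Fin τ) (n : ℕ) (hn : n < (L.getD i []).length),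
      (L.getD i []).getD n 0 = (L.getD i [])[n] := fun i n hn => List.getD_eq_getElem _ _ _
  have hla : ∀ (i : Fin τ) (l : Fin a), (l : ℕ) < (L.getD i []).length := fun i l => by
    rw [hlen2]; exact l.isLt
  have hlt : ∀ (i : Fin τ) (l : Fin a), (L.getD i []).getD l 0 < d := by
    intro i l
    rw [hgd i l (hla i l)]
    exact (d1 _ (hget i)).2.2 _ (List.getElem_mem _)
  set S : Fin τ → Fin a → Fin d := fun i l => ⟨(L.getD i []).getD l 0, hlt i l⟩ with hSd
  have hinj : ∀ i, Function.Injective (S i) := by
    intro i l l' h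
    have h1 : (L.getD i []).getD l 0 = (L.getD i []).getD l' 0 := congrArg Fin.val h
    rw [hgd i l (hla i l), hgd i l' (hla i l')] at h1
    have h2 := (List.Nodup.getElem_inj_iff (d1 _ (hget i)).2.1).1 h1
    exact Fin.ext h2
  -- the list of the values
  have hofn : ∀ (i : Fin τ) (s : Fin d → Bool),
      (L.getD i []).map (fun k => (List.ofFn s).getD k false) =
        List.ofFn (fun l : Fin a => s (S i l)) := by
    intro i s
    apply List.ext_getElem
    · rw [List.length_map, List.length_ofFn, hlen2]
    · intro n h1 h2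
      rw [List.length_ofFn] at h2
      rw [List.getElem_map, List.getElem_ofFn]
      have h4 : n < (L.getD i []).length := by rw [hlen2]; exact h2
      have h3 : (L.getD i [])[n] = (S i ⟨n, h2⟩ : ℕ) := (hgd i n h4).symm
      rw [h3, List.getD_eq_getElem (List.ofFn s) _
        (by rw [List.length_ofFn]; exact (S i ⟨n, h2⟩).isLt), List.getElem_ofFn]
  set C : List Bool → (Fin a → Bool) → Bool := fun x z => code g x (List.ofFn z) with hC
  set W' : Finset (Fin τ → Bool) := Finset.univ.filter (fun w => List.ofFn w ∈ W) with hW'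
  have hWc : W'.card = W.card := by
    rw [hW']
    have := card_strs hS τ (fun z => z ∈ W)
    rw [← this]
    congr 1
    ext z
    rw [Finset.mem_filter]
    exact ⟨fun h => h.2, fun h => ⟨hW h, h⟩⟩
  have hE : ∀ (x : List Bool) (s : Fin d → Bool),
      E1 g B τ x (List.ofFn s) = List.ofFn (fun i : Fin τ => C x (fun l => s (S i l))) := by
    intro x s
    unfold E1
    apply List.ext_getElem
    · rw [List.length_map, List.length_take, List.length_ofFn]
      exact min_eq_left hlen
    · intro n h1 h2
      rw [List.length_ofFn] at h2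
      rw [List.getElem_map, List.getElem_take, List.getElem_ofFn]
      have h3 : L[n]'(by omega) = L.getD (⟨n, h2⟩ : Fin τ) [] := by
        rw [List.getD_eq_getElem _ _ (by show n < L.length; omega)]
      rw [h3, hofn]
  have key := hH τ d a B (32 * τ ^ 2) S C W' X hτ hinj ?_ ?_ ?_
  · -- the final bound
    have hτ2 : τ ≤ 2 ^ (g + 1) := by omega
    have h3 : τ ^ 3 ≤ (2 ^ (g + 1)) ^ 3 := Nat.pow_le_pow_left hτ2 3
    calc X.card ≤ τ * 2 ^ d * 2 ^ B * (32 * τ ^ 2) := key
      _ = τ ^ 3 * (32 * 2 ^ d * 2 ^ B) := by ring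
      _ ≤ (2 ^ (g + 1)) ^ 3 * (32 * 2 ^ d * 2 ^ B) := Nat.mul_le_mul_right _ h3
      _ = 2 ^ (3 * g + 8 + d + B) := by
        rw [← pow_mul, show (32 : ℕ) = 2 ^ 5 by norm_num, ← pow_add, ← pow_add, ← pow_add]
        congr 1
        ring
  · -- the design
    intro i
    have h1 := d3 i (by have := i.isLt; omega)
    refine le_trans ?_ h1
    have e1 : ∑ j ∈ Finset.range (i : ℕ), 2 ^ inter (L.getD i []) (L.getD j []) =
        ∑ j ∈ Finset.univ.filter (fun j : Fin τ => j < i),
          2 ^ inter (L.getD i []) (L.getD j []) := by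
      symm
      apply Finset.sum_bij (fun (j : Fin τ) _ => (j : ℕ))
      · intro j hj
        rw [Finset.mem_filter] at hj
        rw [Finset.mem_range]
        exact hj.2
      · intro j _ j' _ h
        exact Fin.ext h
      · intro n hn
        rw [Finset.mem_range] at hn
        refine ⟨⟨n, hn.trans i.isLt⟩, ?_, rfl⟩
        rw [Finset.mem_filter]
        exact ⟨Finset.mem_univ _, hn⟩
      · intro j _
        rfl
    rw [e1]
    apply Finset.sum_le_sum
    intro j _
    apply Nat.pow_le_pow_right (by norm_num)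
    -- the number of common elements
    unfold inter
    have hnd := (d1 _ (hget i)).2.1
    have e2 : ((L.getD i []).filter (fun k => decide (k ∈ L.getD j []))).length =
        (((L.getD i []).filter (fun k => decide (k ∈ L.getD j []))).toFinset).card := by
      rw [List.toFinset_card_of_nodup (hnd.filter _)]
    rw [e2]
    apply Finset.card_le_card_of_injOn (fun l : Fin a => (S i l : ℕ))
    · intro l hl
      rw [Finset.mem_coe, Finset.mem_filter] at hl
      obtain ⟨_, l', hl'⟩ := hl
      rw [Finset.mem_coe, List.mem_toFinset, List.mem_filter, decide_eq_true_eq]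
      refine ⟨?_, ?_⟩
      · show (L.getD i []).getD l 0 ∈ _
        rw [hgd i l (hla i l)]
        exact List.getElem_mem _
      · show (S i l : ℕ) ∈ _
        rw [hl']
        show (L.getD j []).getD l' 0 ∈ _
        rw [hgd j l' (hla j l')]
        exact List.getElem_mem _
    · intro l _ l' _ h
      exact hinj i (Fin.ext h)
  · -- the hypothesis on the extractor
    intro x hx
    have h1 := hXW x hx
    have h2 : ((strs d).filter (fun s => E1 g B τ x s ∈ W)).card =
        (Finset.univ.filter (fun s : Fin d → Bool =>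
          (fun i => C x (fun l => s (S i l))) ∈ W')).card := by
      rw [card_strs hS d (fun s => E1 g B τ x s ∈ W)]
      congr 1
      ext s
      rw [Finset.mem_filter, Finset.mem_filter, hE, hW', Finset.mem_filter]
      simp
    rw [h2] at h1
    rw [hWc]
    set N := (Finset.univ.filter (fun s : Fin d → Bool =>
          (fun i => C x (fun l => s (S i l))) ∈ W')).card with hN
    have h1' : (8 : ℚ) * W.card * 2 ^ d + 2 ^ τ * 2 ^ d ≤ 8 * 2 ^ τ * N := by exact_mod_cast h1
    have p1 : (0 : ℚ) < 2 ^ τ := by positivity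
    have p2 : (0 : ℚ) < 2 ^ d := by positivity
    rw [le_div_iff₀ p2, ← mul_le_mul_iff_right₀ (show (0:ℚ) < 8 * 2 ^ τ by positivity)]
    calc 8 * 2 ^ τ * (((W.card : ℚ) / 2 ^ τ + 1 / 8) * 2 ^ d) =
        8 * W.card * 2 ^ d + 2 ^ τ * 2 ^ d := by field_simp
      _ ≤ 8 * 2 ^ τ * N := h1'
  · -- Johnson bound
    intro ψ hψ Y hY hYx
    have hext : ∀ z : List Bool, z.length = a → True := fun _ _ => trivial
    apply hJ g τ hτ (by omega) (fun z => if h : z.length = a then
      ψ (fun i => z.get ⟨i, by rw [h]; exact i.isLt⟩) else 0)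
    · intro z
      by_cases h : z.length = a
      · simp only [dif_pos h]; exact hψ _
      · simp only [dif_neg h]; simp
    · intro x hx
      have := hX (hY hx)
      rwa [hS.2.2.2.1] at this
    · intro x hx
      refine (hYx x hx).trans (le_of_eq ?_)
      rw [sum_strs hS]
      congr 1
      apply Finset.sum_congr rfl
      intro w _
      rw [dif_pos (List.length_ofFn)]
      congr 2
      ext i
      rw [List.get_ofFn]
      rfl

end Pool.Agent.H654R5.PT.E1
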